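import Pool.Agent.L0h18.CO.Div
import Pool.Agent.L0h18.CO.Act

/-!
# Nef divisors are semiample if the automorphism group acts cocompactly on a cone of divisor classes

Let `X` be a normal projective variety of dimension `n ≥ 1` and `𝒮` a group of automorphisms of `X`
which acts cocompactly, up to positive scalars, on an open convex cone `Ω` in `N¹(X) ⊗ ℝ`, whose
closure contains no line and which contains a pseudo-effective class. For example:

* an abelian group of rank `ρ - 1` of automorphisms of positive entropy, where `Ω` is a simplicial
  cone;
* a group of automorphisms which is a cocompact group of isometries of a quadratic form of signature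
  `(1, ρ - 1)` on `N¹(X)`, for instance of the Beauville-Bogomolov form of a hyperkähler manifold `X`
  without nonzero isotropic classes and without classes which give walls of the nef cone in the
  positive cone; `Ω` is then a half of the positive cone.

Then every pseudo-effective `ℚ`-divisor `L` on `X`, in particular every nef divisor, is numerically
equivalent to a semiample one, and if the irregularity of `X` is zero then `L` is semiample. There is
no condition on the singularities and on the canonical class of `X`; so the statement of the problem
is true for all projective manifolds with such a group. The base point free theorem is not used.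

Proof. The cone `Ω` is the interior of the nef cone and the interior of the pseudo-effective cone
(rigidity of cocompact actions, see `MP_20d318_ag.CocompactNef`), and the group preserves the lattice of
the integral classes. An integral class on the boundary of the cone would be the limit of classes
`D + ε h` in `Ω`, which are moved into a compact part of `Ω` by elements `g` of the group and scalars
`t`; if `t` is unbounded the nonzero integral classes `g D` would tend to zero, and if it is bounded
then the `g D` are in a finite set. So the class of a pseudo-effective divisor which is not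
numerically trivial is in the interior of the nef cone. Rational classes in the interior of the nef
cone are nonnegative rational combinations of classes of base point free divisors.
-/

set_option autoImplicit false

open FF Pool.Agent.W602.GT Pool.Agent.Y172 Pool.Agent.R887 Pool.Agent.N110 Pool.Agent.N110.CC
open Pool.Agent.N110.PA Pool.Agent.N110.NV Pool.Agent.N492.PA
open Pool.Agent.L0h18.CO (CocompactAction)

namespace Pool.Agent.Results.MP_5ee2d0_ag.CocompactAutomorphisms

/-- Let `X` be a normal projective variety of dimension `n ≥ 1` with generic point `y`. Let the
vectors `c P` be the classes of the prime divisors in `N¹(X) = ℤ ^ ρ` (if `X` is `ℚ`-factorial then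
`ρ` is the Picard number of `X`). Let `𝒮` be a group of automorphisms of `X` which acts cocompactly, up
to positive scalars, on an open convex cone `Ω` in `N¹(X) ⊗ ℝ` whose closure contains no line and which
contains a pseudo-effective class. Let `L` be a nef, or only pseudo-effective, `ℚ`-divisor on `X`.

Then there is a semiample `ℚ`-divisor `L'` which is numerically equivalent to `L` (`L - L'` and
`L' - L` are pseudo-effective). If the irregularity of `X` is zero, then `L` is semiample. If `L` is
not numerically trivial then it is big. -/
theorem result {K : Type} [Field K] [Algebra ℂ K] {N n ρ : ℕ} {y : Fin (N + 1) → K}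
    (hy : NormalModel y) (hn : Algebra.trdeg ℂ K = n) (hn0 : 0 < n)
    {c : Place ℂ K → Fin ρ → ℤ} (hc : PicardBasis y c) {𝒮 : Subgroup (K ≃ₐ[ℂ] K)}
    (h𝒮 : ∀ ψ ∈ 𝒮, IsAut ψ y) {Ω : Set (Fin ρ → ℝ)} (hΩ : CocompactAction y c 𝒮 Ω)
    {L : Place ℂ K → ℚ} (hL : {P | IsPrimeDivisor y P ∧ L P ≠ 0}.Finite)
    (h : Pool.Agent.N110.DV.NefD y n L ∨ PsefD y L) :
    (∃ L' : Place ℂ K → ℚ, SemiampleD y n L' ∧ PsefD y (fun P => L P - L' P) ∧
      PsefD y (fun P => L' P - L P)) ∧
    (IrregularityZero y → SemiampleD y n L) ∧ (PsefD y (fun P => -L P) ∨ BigD y L) := by
  have hps : PsefD y L := by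
    rcases h with h | h
    · exact Pool.Agent.L0h18.CO.psef_of_nefD hy hn hn0 h
    · exact h
  have hsa := Pool.Agent.L0h18.CO.sa_main hy hn hn0 hc h𝒮 hΩ.cone
    (fun T ⟨ψ, hψ, hT⟩ x hx => hΩ.inv ψ hψ T hT x hx) hΩ.cocompact hΩ.psef hL hps
  refine ⟨Pool.Agent.L0h18.CO.semiample_num hc hL hsa,
    fun hq => Pool.Agent.L0h18.CO.semiample_q hy hc hq hL hsa, ?_⟩
  by_cases h0 : cls y (cQ c) L = 0
  · exact Or.inl (psef_of_zero hc.numClasses (fin_neg hL) (by rw [cls_neg, h0, neg_zero]))
  · have h1 := Pool.Agent.N618.CC.leafPSCL K N ρ y hy (cQ c) hc.numClasses.principal L hL hps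
    exact Or.inr (Pool.Agent.N619.CC.leafBIG K N ρ y hy c hc L hL
      (Pool.Agent.L0h18.CO.rat_big hy hn hn0 hc (fun ψ hψ => isAut_ps hy (h𝒮 ψ hψ)) hΩ.cone
        (fun T ⟨ψ, hψ, hT⟩ x hx => hΩ.inv ψ hψ T hT x hx) hΩ.cocompact hΩ.psef h1 h0))

end Pool.Agent.Results.MP_5ee2d0_ag.CocompactAutomorphisms
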