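import Pool.Agent.L0h16.PZ.Inst
import Pool.Agent.L0h16.PZ.Div

/-!
# Nef divisors on varieties whose divisor classes are a direct sum of arithmetic pieces

Let `X` be a normal projective variety of dimension `n ≥ 1`, the divisor classes `N¹(X) ⊗ ℚ` of which are a direct
sum of `m ≥ 2` pieces. Let `𝒮` be a group of automorphisms of `X` which contains for each piece automorphisms
which act as the identity on the other pieces, and on this piece as a subgroup of finite index of `O⁺(B, ℤ)`, for an
isotropic integral form `B` of signature `(1, d - 1)`, `d ≥ 3`, or as a subgroup of finite index of the group of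
units of an order with a positive involution acts on the self-adjoint elements. There is no condition on the
singularities and on the canonical class of `X`. Examples are the quotients `(A × Y₁ × ... × Y_k) / G`, where `A` is
an abelian variety, the `Y_i` are hyperkähler manifolds, and `G` is a finite group, if the divisor classes which
are invariant under `G` are the sum of the invariant classes of the factors, and the automorphisms of the factors
which commute with `G` act arithmetically.

Then a `ℚ`-divisor `L` is pseudo-effective if and only if its class is in the product of the closed positive cones of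
the pieces, and big if and only if its class is in the product of the open cones. Every nef, or only
pseudo-effective `L` is either big and then numerically equivalent to a semiample divisor, or numerically
equivalent to a combination `∑ t_E f^* E` with `f ∈ 𝒮` and rational coefficients `t_E ≥ 0`, where `E` runs through
finitely many integral divisors, the class of each of which is in one of the pieces, and which depend only on `X`
and `𝒮`. So all nef (all pseudo-effective) `ℚ`-divisors are numerically equivalent to semiample divisors if and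
only if this is so for these divisors `E`, hence if and only if it is so for the pieces; and if the irregularity
of `X` is zero, then nef and pseudo-effective are the same for `ℚ`-divisors, and all of them are semiample if and
only if the `E` are semiample.

Proof. The nef cone and the pseudo-effective cone are the product of the closed cones (see
`MP_20d318_ag.DirectSumsOfLatticesNef`), and `𝒮` has a rational polyhedral fundamental domain on the cone
generated by the integral points of this cone. Decompose its generators, and use that the rational classes in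
the open cone are positive combinations of the classes of base point free divisors.
-/

set_option autoImplicit false

open FF Pool.Agent.W602.GT Pool.Agent.Y172 Pool.Agent.R887 Pool.Agent.N110 Pool.Agent.N110.CC
open Pool.Agent.N110.PA Pool.Agent.N110.NV Pool.Agent.N492.PA
open Pool.Agent.N110.DV (NefD)
open Pool.Agent.L0h18.CO Pool.Agent.L0h18.HZ Pool.Agent.L0h16.LA
open Pool.Agent.L0h16.PZ (DirSum part prd IsArith mods sum_all one_pulls mul_pulls piece_of bdry_pieces)
open Pool.Agent.N165.KM (IntL)

namespace Pool.Agent.Results.MP_5ee2d0_ag.DirectSumsOfLattices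

/-- `N¹(X) ⊗ ℚ` is the direct sum of `m ≥ 2` pieces (`J i` are the embeddings and `Q i` the projections, both map
integral vectors to vectors with bounded denominators). For each `i` the elements of `𝒮` which act as the identity on
the other pieces act on the piece `i` either as a subgroup of finite index of `O⁺(B, ℤ)`, where `B` is an integral
form of signature `(1, d - 1)`, `d ≥ 3`, with isotropic vectors, or as a subgroup of finite index of the group of
units of an order of a real algebra with positive involution acts on the self-adjoint elements; `P i` and `C i` are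
the open and the closed cone of positive vectors (positive elements). Some pseudo-effective class is in the
product of the open cones. -/
structure SumAction {K : Type} [Field K] [Algebra ℂ K] {N ρ : ℕ} (y : Fin (N + 1) → K)
    (c : Place ℂ K → Fin ρ → ℤ) (𝒮 : Subgroup (K ≃ₐ[ℂ] K)) {m : ℕ}
    {d : Fin m → ℕ} (J : ∀ i, (Fin (d i) → ℝ) →ₗ[ℝ] (Fin ρ → ℝ)) (Q : ∀ i, (Fin ρ → ℝ) →ₗ[ℝ] (Fin (d i) → ℝ))
    (P C : ∀ i, Set (Fin (d i) → ℝ)) : Prop where
  two : 2 ≤ m
  sum : DirSum J Q
  rat : ∃ M : ℕ, 0 < M ∧ ∀ i, ∀ x ∈ IntL ρ, (M : ℝ) • Q i x ∈ IntL (d i)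
  arith : ∀ i, IsArith (part J {T | ∃ ψ ∈ 𝒮, IsPullBack y c ψ T} i) (P i) (C i)
  psef : (prd Q P ∩ closure (effCone y c)).Nonempty

/-- Let `X` be a normal projective variety of dimension `n ≥ 1`, with generic point `y`. Let the
vectors `c P` be the classes of the prime divisors in `N¹(X) = ℤ ^ ρ` (if `X` is `ℚ`-factorial then
`ρ` is the Picard number of `X`); `rc y c L` is the class of the `ℚ`-divisor `L`. Suppose that `N¹(X) ⊗ ℚ` is the
direct sum of `m ≥ 2` pieces, and that a group `𝒮` of automorphisms of `X` contains for each piece `i`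
automorphisms which act as the identity on the other pieces and as a subgroup of finite index of `O⁺(B, ℤ)`, or of
the group of units of an order with positive involution, on this piece (`SumAction`). Then:

1. a `ℚ`-divisor is pseudo-effective if and only if its class is in the product of the closed cones, it is big if
   and only if its class is in the product of the open cones, and if the irregularity of `X` is zero then it is
   nef if and only if it is pseudo-effective;

and there is a finite set `ℱ` of integral pseudo-effective divisors, the class of each of which is in one of the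
pieces, such that:

2. every nef or pseudo-effective `ℚ`-divisor `L` is big and numerically equivalent to a semiample divisor,
   and semiample if the irregularity is zero, or it is numerically equivalent to the sum of `t E • f^* E`,
   `E ∈ ℱ`, for an automorphism `f` in `𝒮` and rational numbers `t E ≥ 0`;
3. all nef or pseudo-effective `ℚ`-divisors are numerically equivalent to semiample ones if and only if the
   divisors in `ℱ` are;
4. if the irregularity of `X` is zero then all nef `ℚ`-divisors are semiample if and only if the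
   divisors in `ℱ` are semiample. -/
theorem result {K : Type} [Field K] [Algebra ℂ K] {N n ρ : ℕ} {y : Fin (N + 1) → K}
    (hy : NormalModel y) (hn : Algebra.trdeg ℂ K = n) (hn0 : 0 < n)
    {c : Place ℂ K → Fin ρ → ℤ} (hc : PicardBasis y c) (𝒮 : Subgroup (K ≃ₐ[ℂ] K))
    (h𝒮 : ∀ ψ ∈ 𝒮, IsAut ψ y) {m : ℕ} {d : Fin m → ℕ}
    (J : ∀ i, (Fin (d i) → ℝ) →ₗ[ℝ] (Fin ρ → ℝ)) (Q : ∀ i, (Fin ρ → ℝ) →ₗ[ℝ] (Fin (d i) → ℝ))
    (P C : ∀ i, Set (Fin (d i) → ℝ)) (hL : SumAction y c 𝒮 J Q P C) :
    (∀ L : Place ℂ K → ℚ, {P | IsPrimeDivisor y P ∧ L P ≠ 0}.Finite →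
      (PsefD y L ↔ rc y c L ∈ prd Q C) ∧ (BigD y L ↔ rc y c L ∈ prd Q P) ∧
      (IrregularityZero y → (NefD y n L ↔ PsefD y L))) ∧
    ∃ ℱ : Finset (Place ℂ K → ℤ),
      (∀ E ∈ ℱ, {P | IsPrimeDivisor y P ∧ E P ≠ 0}.Finite ∧
        PsefD y (fun P => (E P : ℚ)) ∧ ∃ i, ∃ v ∈ C i, rc y c (fun P => (E P : ℚ)) = J i v) ∧
      (∀ L : Place ℂ K → ℚ, {P | IsPrimeDivisor y P ∧ L P ≠ 0}.Finite → NefD y n L ∨ PsefD y L →
        (BigD y L ∧ NumSemiample y n L ∧ (IrregularityZero y → SemiampleD y n L)) ∨
        ∃ ψ ∈ 𝒮, ∃ t : (Place ℂ K → ℤ) → ℚ, (∀ E, 0 ≤ t E) ∧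
          NumEquiv y L (fun P => ∑ E ∈ ℱ, t E * pullD ψ (fun P => (E P : ℚ)) P)) ∧
      ((∀ L : Place ℂ K → ℚ, {P | IsPrimeDivisor y P ∧ L P ≠ 0}.Finite → NefD y n L ∨ PsefD y L →
          NumSemiample y n L) ↔ ∀ E ∈ ℱ, NumSemiample y n (fun P => (E P : ℚ))) ∧
      (IrregularityZero y →
        ((∀ L : Place ℂ K → ℚ, {P | IsPrimeDivisor y P ∧ L P ≠ 0}.Finite → NefD y n L →
          SemiampleD y n L) ↔ ∀ E ∈ ℱ, SemiampleD y n (fun P => (E P : ℚ)))) := by
  have hfr := fun φ hφ => Pool.Agent.N265.CC.leafFREE K N n y hy φ (h𝒮 φ hφ)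
  have hps : ∀ φ ∈ 𝒮, PseudoAut φ y := fun φ hφ => (hfr φ hφ).1
  obtain ⟨⟨hop, hcl, hint', hne, hCC⟩, hrig, F₀, hF₀, hcov⟩ :=
    sum_all mods hL.sum (𝒢 := pulls y c 𝒮) one_pulls (mul_pulls hy hc hps) hL.arith
  obtain ⟨hCE, hnef⟩ := nef_eqG hy hn hn0 hc h𝒮 hint' hrig hL.psef
  have hpc := fun i => piece_of mods (hL.arith i)
  have hJC : ∀ i, ∀ v ∈ C i, J i v ∈ prd Q C := by
    intro i v hv j
    by_cases hji : j = i
    · subst hji
      rw [hL.sum.same]
      exact hv
    · rw [hL.sum.other i j hji]
      obtain ⟨p, hp⟩ := (hpc j).ne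
      have h1 : p ∈ C j := by
        rw [← (hpc j).cl]
        exact subset_closure hp
      have := (hpc j).cc.smul 0 le_rfl p h1
      rwa [zero_smul] at this
  have hsa : interior (CE y c) ⊆ saCone y n c := by
    rw [hCE, ← hnef]
    refine interior_closure_sub ?_
    change (interior (nefCone y n c)).Nonempty
    rw [hnef, hint']
    exact hne
  obtain ⟨ℱ, hℱ, hall⟩ := bdry_pieces hy hc hps hL.sum hL.rat (fun i => (hpc i).cc) hCC hop hcl hint' hne hcov hF₀ hCE
  have hpsef : ∀ L : Place ℂ K → ℚ, NefD y n L ∨ PsefD y L → PsefD y L := by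
    rintro L (h1 | h1)
    · exact psef_of_nefD hy hn hn0 h1
    · exact h1
  have hEfin : ∀ E ∈ ℱ, {P | IsPrimeDivisor y P ∧ (E P : ℚ) ≠ 0}.Finite := by
    intro E hE
    refine (hℱ E hE).1.subset ?_
    rintro P ⟨h1, h2⟩
    exact ⟨h1, fun h3 => h2 (by rw [h3]; simp)⟩
  have hEps : ∀ E ∈ ℱ, PsefD y (fun P => (E P : ℚ)) := fun E hE =>
    (psef_iff hy hc (hEfin E hE)).2 (by
      obtain ⟨i, v, hv, h1⟩ := (hℱ E hE).2
      rw [hCE, h1]
      exact hJC i v hv)
  -- the classification
  have hcls : ∀ L : Place ℂ K → ℚ, {P | IsPrimeDivisor y P ∧ L P ≠ 0}.Finite → PsefD y L →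
      rc y c L ∈ interior (CE y c) ∨
        ∃ ψ ∈ 𝒮, ∃ t : (Place ℂ K → ℤ) → ℚ, (∀ E, 0 ≤ t E) ∧
          NumEquiv y L (fun P => ∑ E ∈ ℱ, t E * pullD ψ (fun P => (E P : ℚ)) P) := by
    intro L hLf hp
    have h1 := (psef_iff hy hc hLf).1 hp
    rw [hCE] at h1
    by_cases h2 : rc y c L ∈ prd Q P
    · refine Or.inl ?_
      rw [hCE, hint']
      exact h2
    · exact Or.inr (hall L hLf h1 h2)
  -- transport
  have htr : ∀ L : Place ℂ K → ℚ, {P | IsPrimeDivisor y P ∧ L P ≠ 0}.Finite → PsefD y L →
      (∀ E ∈ ℱ, rc y c (fun P => (E P : ℚ)) ∈ saCone y n c) → rc y c L ∈ saCone y n c := by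
    intro L hLf hp hE
    rcases hcls L hLf hp with h1 | ⟨ψ, hψ, t, ht, h1⟩
    · exact hsa h1
    · obtain ⟨M, hM⟩ := exists_rep (𝒮 := 𝒮) hy hc hps
      have hT := hM.isPull ⟨ψ, hψ⟩
      have hF : ∀ E ∈ ℱ, Fin0 y (fun P => t E * pullD ψ (fun P => (E P : ℚ)) P) := fun E hEm =>
        (fin_pull (hps ψ hψ) (hEfin E hEm)).smul _
      rw [numEquiv_iff hy hc hLf (Fin0.sum _ hF)] at h1
      rw [h1]
      have h2 : rc y c (fun P => ∑ E ∈ ℱ, t E * pullD ψ (fun P => (E P : ℚ)) P) =
          ∑ E ∈ ℱ, (t E : ℝ) • hM.TE ⟨ψ, hψ⟩ (rc y c (fun P => (E P : ℚ))) := by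
        unfold rc
        rw [cls_sum _ hF, toR_sum]
        refine Finset.sum_congr rfl fun E hEm => ?_
        have h4 := rc_smul (y := y) (c := c) (t E) (pullD ψ (fun P => (E P : ℚ)))
        rw [rc_pull hy (hps ψ hψ) hT (hEfin E hEm)] at h4
        exact h4
      rw [h2]
      refine Finset.sum_induction _ (· ∈ saCone y n c) (fun x z hx hz => coneOf_add hx hz)
        (coneOf_zero _) fun E hEm => ?_
      have h3 : hM.TE ⟨ψ, hψ⟩ (rc y c (fun P => (E P : ℚ))) ∈ saCone y n c :=
        sa_pres hy h𝒮 ⟨ψ, hψ, hT⟩ (hE E hEm)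
      exact coneOf_smul h3 (by exact_mod_cast ht E)
  refine ⟨fun L hLf => ⟨?_, ?_, fun hq => ⟨psef_of_nefD hy hn hn0, nefD_of_psef hy hc hq hsa hLf⟩⟩,
    ℱ, fun E hE => ⟨(hℱ E hE).1, hEps E hE, (hℱ E hE).2⟩, fun L hLf hLn => ?_,
    ⟨fun hA E hE => hA _ (hEfin E hE) (Or.inr (hEps E hE)), fun hA L hLf hLn => ?_⟩,
    fun hq => ⟨fun hA E hE => hA _ (hEfin E hE) (nefD_of_psef hy hc hq hsa (hEfin E hE) (hEps E hE)),
      fun hA L hLf hLn => ?_⟩⟩
  · rw [psef_iff hy hc hLf, hCE]
  · rw [big_iff hy hc hLf, hCE, hint']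
  · rcases hcls L hLf (hpsef L hLn) with h1 | h1
    · exact Or.inl ⟨(big_iff hy hc hLf).2 h1, (numSemiample_iff hy hc hLf).2 (hsa h1),
        fun hq => (semiample_iff hy hc hq hLf).2 (hsa h1)⟩
    · exact Or.inr h1
  · exact (numSemiample_iff hy hc hLf).2 (htr L hLf (hpsef L hLn) fun E hE =>
      (numSemiample_iff hy hc (hEfin E hE)).1 (hA E hE))
  · exact (semiample_iff hy hc hq hLf).2 (htr L hLf (hpsef L (Or.inl hLn)) fun E hE =>
      (semiample_iff hy hc hq (hEfin E hE)).1 (hA E hE))

end Pool.Agent.Results.MP_5ee2d0_ag.DirectSumsOfLattices
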