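import Pool.Agent.L0h16.LA.Bdry

/-!
# Nef divisors on varieties whose automorphisms act as the units of an order

Let `X` be a normal projective variety of dimension `n ≥ 1` and let `𝒮` be a group of automorphisms of `X`
which act on the divisor classes as a subgroup of finite index of the group of units `u` of an order `R` acts
on the self-adjoint elements `a` of a real algebra `A` with positive involution, by `a ↦ u* a u`; the order
contains an element of square zero which generates `A` as an ideal. Examples are `N¹(X) = Sym²(ℤ^m)`, `m ≥ 2`,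
with the group `GL_m(ℤ)` (for instance the powers `E^m` of an elliptic curve without complex multiplication,
and singular quotients of them), hermitian forms in `m ≥ 2` variables over imaginary quadratic fields,
totally real fields, CM fields and totally definite quaternion algebras. There is no condition on the
singularities and on the canonical class of `X`.

Then a `ℚ`-divisor `L` is pseudo-effective if and only if its class is positive semidefinite, and big if and
only if its class is positive definite. Every nef, or only pseudo-effective `L` is either big and then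
numerically equivalent to a semiample divisor, or numerically equivalent to a combination `∑ t_E f^* E` with
`f ∈ 𝒮` and rational coefficients `t_E ≥ 0`, where `E` runs through finitely many integral divisors which are
not big and depend only on `X` and `𝒮`. So all nef (all pseudo-effective) `ℚ`-divisors are numerically
equivalent to semiample divisors if and only if this is so for the finitely many divisors `E`; and if the
irregularity of `X` is zero, then nef and pseudo-effective are the same for `ℚ`-divisors, and all of them are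
semiample if and only if the `E` are semiample.

Proof. By the rigidity theorem of helper18 (`MP_20d318_ag.HermitianLatticesNef`) the nef cone and the
pseudo-effective cone are the cone of positive semidefinite elements, and `𝒮` has a rational polyhedral
fundamental domain on the cone generated by the integral points of this cone. If a class in a translate of
this domain is not big then only generators which are not big have nonzero coefficients, and the coefficients
of a rational class can be chosen rational. The rational classes in the open cone are positive combinations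
of the classes of base point free divisors.
-/

set_option autoImplicit false

open FF Pool.Agent.W602.GT Pool.Agent.Y172 Pool.Agent.R887 Pool.Agent.N110 Pool.Agent.N110.CC
open Pool.Agent.N110.PA Pool.Agent.N110.NV Pool.Agent.N492.PA
open Pool.Agent.N110.DV (NefD)
open Pool.Agent.L0h18.CO Pool.Agent.L0h18.HZ Pool.Agent.L0h16.LA
open Pool.Agent.Y167 (Sys)

namespace Pool.Agent.Results.MP_5ee2d0_ag.HermitianAutomorphisms

/-- `Φ` identifies `N¹(X) ⊗ ℝ` with the space of self-adjoint elements of the algebra `A` with positive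
involution; the integral self-adjoint elements correspond to classes with bounded denominators; the order `R`
contains an element of square zero which generates `A` as a two-sided ideal; the group `𝒮` acts on `N¹(X)` as a
subgroup of finite index of the group of units of `R`, a unit `u` acting by `a ↦ u* a u`; some pseudo-effective
class is positive definite. -/
structure HermitianAction {K : Type} [Field K] [Algebra ℂ K] {N ρ : ℕ} (y : Fin (N + 1) → K)
    (c : Place ℂ K → Fin ρ → ℤ) (𝒮 : Subgroup (K ≃ₐ[ℂ] K)) {A : Type} [Ring A] [Algebra ℝ A] {r : ℕ}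
    (S : Sys A r) (Φ : (Fin ρ → ℝ) →ₗ[ℝ] A) : Prop where
  herm : Herm S Φ
  index : FinIdxU S Φ {T | ∃ ψ ∈ 𝒮, IsPullBack y c ψ T}
  psef : (pd S Φ ∩ closure (effCone y c)).Nonempty

/-- Let `X` be a normal projective variety of dimension `n ≥ 1`, with generic point `y`. Let the
vectors `c P` be the classes of the prime divisors in `N¹(X) = ℤ ^ ρ` (if `X` is `ℚ`-factorial then
`ρ` is the Picard number of `X`); `rc y c L` is the class of the `ℚ`-divisor `L`. Suppose that a group `𝒮` of
automorphisms of `X` acts on `N¹(X)` as a subgroup of finite index of the group of units `u` of an order `R`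
acts on the self-adjoint elements `a` of a real algebra `A` with positive involution, by `a ↦ u* a u`; the
order contains an element of square zero which generates `A` as an ideal. Then:

1. a `ℚ`-divisor is pseudo-effective if and only if its class is positive semidefinite, it is big if
   and only if its class is positive definite, and if the irregularity of `X` is zero then it is
   nef if and only if it is pseudo-effective;

and there is a finite set `ℱ` of integral divisors which are pseudo-effective and not big such that: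

2. every nef or pseudo-effective `ℚ`-divisor `L` is big and numerically equivalent to a semiample divisor,
   and semiample if the irregularity is zero, or it is numerically equivalent to the sum of `t E • f^* E`,
   `E ∈ ℱ`, for an automorphism `f` in `𝒮` and rational numbers `t E ≥ 0`;
3. all nef or pseudo-effective `ℚ`-divisors are numerically equivalent to semiample ones if and only if the
   divisors in `ℱ` are;
4. if the irregularity of `X` is zero then all nef `ℚ`-divisors are semiample if and only if the
   divisors in `ℱ` are semiample. -/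
theorem result {K : Type} [Field K] [Algebra ℂ K] {N n ρ : ℕ} {y : Fin (N + 1) → K}
    (hy : NormalModel y) (hn : Algebra.trdeg ℂ K = n) (hn0 : 0 < n)
    {c : Place ℂ K → Fin ρ → ℤ} (hc : PicardBasis y c) (𝒮 : Subgroup (K ≃ₐ[ℂ] K))
    (h𝒮 : ∀ ψ ∈ 𝒮, IsAut ψ y) {A : Type} [Ring A] [Algebra ℝ A] {r : ℕ} (S : Sys A r)
    (Φ : (Fin ρ → ℝ) →ₗ[ℝ] A) (hL : HermitianAction y c 𝒮 S Φ) :
    (∀ L : Place ℂ K → ℚ, {P | IsPrimeDivisor y P ∧ L P ≠ 0}.Finite →
      (PsefD y L ↔ rc y c L ∈ psd S Φ) ∧ (BigD y L ↔ rc y c L ∈ pd S Φ) ∧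
      (IrregularityZero y → (NefD y n L ↔ PsefD y L))) ∧
    ∃ ℱ : Finset (Place ℂ K → ℤ),
      (∀ E ∈ ℱ, {P | IsPrimeDivisor y P ∧ E P ≠ 0}.Finite ∧
        PsefD y (fun P => (E P : ℚ)) ∧ ¬ BigD y (fun P => (E P : ℚ))) ∧
      (∀ L : Place ℂ K → ℚ, {P | IsPrimeDivisor y P ∧ L P ≠ 0}.Finite → NefD y n L ∨ PsefD y L →
        (BigD y L ∧ NumSemiample y n L ∧ (IrregularityZero y → SemiampleD y n L)) ∨
        ∃ ψ ∈ 𝒮, ∃ t : (Place ℂ K → ℤ) → ℚ, (∀ E, 0 ≤ t E) ∧
          NumEquiv y L (fun P => ∑ E ∈ ℱ, t E * pullD ψ (fun P => (E P : ℚ)) P)) ∧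
      ((∀ L : Place ℂ K → ℚ, {P | IsPrimeDivisor y P ∧ L P ≠ 0}.Finite → NefD y n L ∨ PsefD y L →
          NumSemiample y n L) ↔ ∀ E ∈ ℱ, NumSemiample y n (fun P => (E P : ℚ))) ∧
      (IrregularityZero y →
        ((∀ L : Place ℂ K → ℚ, {P | IsPrimeDivisor y P ∧ L P ≠ 0}.Finite → NefD y n L →
          SemiampleD y n L) ↔ ∀ E ∈ ℱ, SemiampleD y n (fun P => (E P : ℚ)))) := by
  have hfr := fun φ hφ => Pool.Agent.N265.CC.leafFREE K N n y hy φ (h𝒮 φ hφ)
  have hps : ∀ φ ∈ 𝒮, PseudoAut φ y := fun φ hφ => (hfr φ hφ).1
  obtain ⟨hop, hcl, hint', hne, hCC⟩ := m_top A r ρ S Φ hL.herm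
  obtain ⟨F₀, hF₀, hcov⟩ := m_cov A r ρ S Φ hL.herm _ hL.index
  obtain ⟨hCE, hnef⟩ := nef_eqG hy hn hn0 hc h𝒮 hint' (rigid_of hL.herm hL.index) hL.psef
  have hsa : interior (CE y c) ⊆ saCone y n c := by
    rw [hCE, ← hnef]
    refine interior_closure_sub ?_
    change (interior (nefCone y n c)).Nonempty
    rw [hnef, hint']
    exact hne
  obtain ⟨ℱ, hℱ, hall⟩ := bdry_div hy hc hps hCC hop hcl hint' hne hcov hF₀ hCE
  have hpsef : ∀ L : Place ℂ K → ℚ, NefD y n L ∨ PsefD y L → PsefD y L := by
    rintro L (h1 | h1)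
    · exact psef_of_nefD hy hn hn0 h1
    · exact h1
  have hEfin : ∀ E ∈ ℱ, {P | IsPrimeDivisor y P ∧ (E P : ℚ) ≠ 0}.Finite := by
    intro E hE
    refine (hℱ E hE).1.subset ?_
    rintro P ⟨h1, h2⟩
    exact ⟨h1, fun h3 => h2 (by rw [h3]; simp)⟩
  have hEps : ∀ E ∈ ℱ, PsefD y (fun P => (E P : ℚ)) := fun E hE =>
    (psef_iff hy hc (hEfin E hE)).2 (by rw [hCE]; exact (hℱ E hE).2.1)
  have hEnb : ∀ E ∈ ℱ, ¬ BigD y (fun P => (E P : ℚ)) := fun E hE h1 => by
    rw [big_iff hy hc (hEfin E hE), hCE, hint'] at h1
    exact (hℱ E hE).2.2 h1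
  -- the classification
  have hcls : ∀ L : Place ℂ K → ℚ, {P | IsPrimeDivisor y P ∧ L P ≠ 0}.Finite → PsefD y L →
      rc y c L ∈ interior (CE y c) ∨
        ∃ ψ ∈ 𝒮, ∃ t : (Place ℂ K → ℤ) → ℚ, (∀ E, 0 ≤ t E) ∧
          NumEquiv y L (fun P => ∑ E ∈ ℱ, t E * pullD ψ (fun P => (E P : ℚ)) P) := by
    intro L hLf hp
    have h1 := (psef_iff hy hc hLf).1 hp
    rw [hCE] at h1
    by_cases h2 : rc y c L ∈ pd S Φ
    · refine Or.inl ?_
      rw [hCE, hint']
      exact h2
    · exact Or.inr (hall L hLf h1 h2)
  -- transport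
  have htr : ∀ L : Place ℂ K → ℚ, {P | IsPrimeDivisor y P ∧ L P ≠ 0}.Finite → PsefD y L →
      (∀ E ∈ ℱ, rc y c (fun P => (E P : ℚ)) ∈ saCone y n c) → rc y c L ∈ saCone y n c := by
    intro L hLf hp hE
    rcases hcls L hLf hp with h1 | ⟨ψ, hψ, t, ht, h1⟩
    · exact hsa h1
    · obtain ⟨M, hM⟩ := exists_rep (𝒮 := 𝒮) hy hc hps
      have hT := hM.isPull ⟨ψ, hψ⟩
      have hF : ∀ E ∈ ℱ, Fin0 y (fun P => t E * pullD ψ (fun P => (E P : ℚ)) P) := fun E hEm =>
        (fin_pull (hps ψ hψ) (hEfin E hEm)).smul _
      rw [numEquiv_iff hy hc hLf (Fin0.sum _ hF)] at h1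
      rw [h1]
      have h2 : rc y c (fun P => ∑ E ∈ ℱ, t E * pullD ψ (fun P => (E P : ℚ)) P) =
          ∑ E ∈ ℱ, (t E : ℝ) • hM.TE ⟨ψ, hψ⟩ (rc y c (fun P => (E P : ℚ))) := by
        unfold rc
        rw [cls_sum _ hF, toR_sum]
        refine Finset.sum_congr rfl fun E hEm => ?_
        have h4 := rc_smul (y := y) (c := c) (t E) (pullD ψ (fun P => (E P : ℚ)))
        rw [rc_pull hy (hps ψ hψ) hT (hEfin E hEm)] at h4
        exact h4
      rw [h2]
      refine Finset.sum_induction _ (· ∈ saCone y n c) (fun x z hx hz => coneOf_add hx hz)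
        (coneOf_zero _) fun E hEm => ?_
      have h3 : hM.TE ⟨ψ, hψ⟩ (rc y c (fun P => (E P : ℚ))) ∈ saCone y n c :=
        sa_pres hy h𝒮 ⟨ψ, hψ, hT⟩ (hE E hEm)
      exact coneOf_smul h3 (by exact_mod_cast ht E)
  refine ⟨fun L hLf => ⟨?_, ?_, fun hq => ⟨psef_of_nefD hy hn hn0, nefD_of_psef hy hc hq hsa hLf⟩⟩,
    ℱ, fun E hE => ⟨(hℱ E hE).1, hEps E hE, hEnb E hE⟩, fun L hLf hLn => ?_,
    ⟨fun hA E hE => hA _ (hEfin E hE) (Or.inr (hEps E hE)), fun hA L hLf hLn => ?_⟩,
    fun hq => ⟨fun hA E hE => hA _ (hEfin E hE) (nefD_of_psef hy hc hq hsa (hEfin E hE) (hEps E hE)),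
      fun hA L hLf hLn => ?_⟩⟩
  · rw [psef_iff hy hc hLf, hCE]
  · rw [big_iff hy hc hLf, hCE, hint']
  · rcases hcls L hLf (hpsef L hLn) with h1 | h1
    · exact Or.inl ⟨(big_iff hy hc hLf).2 h1, (numSemiample_iff hy hc hLf).2 (hsa h1),
        fun hq => (semiample_iff hy hc hq hLf).2 (hsa h1)⟩
    · exact Or.inr h1
  · exact (numSemiample_iff hy hc hLf).2 (htr L hLf (hpsef L hLn) fun E hE =>
      (numSemiample_iff hy hc (hEfin E hE)).1 (hA E hE))
  · exact (semiample_iff hy hc hq hLf).2 (htr L hLf (hpsef L (Or.inl hLn)) fun E hE =>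
      (semiample_iff hy hc hq (hEfin E hE)).1 (hA E hE))

end Pool.Agent.Results.MP_5ee2d0_ag.HermitianAutomorphisms
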