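import Pool.Agent.L0h16.LA.Main

/-!
# Nef divisors on varieties whose automorphism group is arithmetic

Let `X` be a normal projective variety of dimension `n ≥ 1`, let `B` be an integral quadratic form of
signature `(1, ρ - 1)` on `N¹(X) = ℤ ^ ρ`, and let `𝒮` be a group of automorphisms of `X` which act on
`N¹(X)` through a subgroup of finite index of the orthogonal group `O(B, ℤ)`. Let `ρ ≥ 3` or let `B` be
anisotropic. (For `ρ ≥ 5` there are always isotropic classes, by Meyer's theorem; the group is then never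
cocompact, so `MP_5ee2d0_ag.CocompactAutomorphisms` does not apply.) There is no condition on the
singularities and on the canonical class of `X`. Examples are the projective hyperkähler manifolds (`B` is the
Beauville-Bogomolov form on the Néron-Severi group, by Markman's form of the Torelli theorem) without classes
giving walls of the nef cone in the positive cone.

Then every nef, or only pseudo-effective `ℚ`-divisor `L` on `X` is numerically trivial, or big and then
numerically equivalent to a semiample divisor, or isotropic; and there are finitely many isotropic integral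
divisors `E` such that all isotropic `L` are numerically proportional to `f^* E`, with `f ∈ 𝒮` and one of these
`E`. So all nef (all pseudo-effective) divisors are numerically equivalent to semiample divisors if and only
if this is so for the finitely many divisors `E`; and if the irregularity of `X` is zero, then nef and
pseudo-effective are the same for `ℚ`-divisors, and all of them are semiample if and only if the `E` are
semiample.

Proof. By the rigidity theorem of helper18 (`MP_20d318_ag.LatticeActionsNef`) the nef cone and the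
pseudo-effective cone are the closed positive cone, and `𝒮` has a rational polyhedral fundamental domain on
the cone generated by the integral points of this cone. Isotropic vectors are extremal, so that the isotropic
rational classes are translates of multiples of the isotropic generators of the fundamental domain. The
rational classes in the open cone are positive combinations of the classes of base point free divisors.
-/

set_option autoImplicit false

open FF Pool.Agent.W602.GT Pool.Agent.Y172 Pool.Agent.R887 Pool.Agent.N110 Pool.Agent.N110.CC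
open Pool.Agent.N110.PA Pool.Agent.N110.NV Pool.Agent.N492.PA
open Pool.Agent.N110.DV (NefD)
open Pool.Agent.L0h18.CO Pool.Agent.L0h18.LZ Pool.Agent.L0h16.LA

namespace Pool.Agent.Results.MP_5ee2d0_ag.LatticeAutomorphisms

/-- `B` is an integral quadratic form of signature `(1, ρ - 1)` on `N¹(X) = ℤ ^ ρ`, the group `𝒮` acts on
`N¹(X)` through a subgroup of finite index of the group of isometries of `B` which preserve the component
`pcone B h` of the cone of positive vectors, there is a pseudo-effective class in this component, and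
`ρ ≥ 3` or `B` has no isotropic vectors. -/
structure LatticeAction {K : Type} [Field K] [Algebra ℂ K] {N ρ : ℕ} (y : Fin (N + 1) → K)
    (c : Place ℂ K → Fin ρ → ℤ) (𝒮 : Subgroup (K ≃ₐ[ℂ] K)) (B : Matrix (Fin ρ) (Fin ρ) ℤ)
    (h : Fin ρ → ℝ) : Prop where
  form : Lorentz B h
  index : FinIdx B h {T | ∃ ψ ∈ 𝒮, IsPullBack y c ψ T}
  rank : 3 ≤ ρ ∨ ∀ e ∈ Pts B h, bil B e e ≠ 0
  psef : (pcone B h ∩ closure (effCone y c)).Nonempty

/-- Let `X` be a normal projective variety of dimension `n ≥ 1`, with generic point `y`. Let the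
vectors `c P` be the classes of the prime divisors in `N¹(X) = ℤ ^ ρ` (if `X` is `ℚ`-factorial then
`ρ` is the Picard number of `X`); `rc y c L` is the class of the `ℚ`-divisor `L`. Let `B` be an integral
quadratic form on `N¹(X)` of signature `(1, ρ - 1)`, and let `𝒮` be a group of automorphisms of `X` which
act on `N¹(X)` through a subgroup of finite index of `O(B, ℤ)`; here `ρ ≥ 3` or `B` is anisotropic. Then:

1. a `ℚ`-divisor is pseudo-effective if and only if its class is in the closed positive cone, it is big if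
   and only if its class is in the open positive cone, and if the irregularity of `X` is zero then it is
   nef if and only if it is pseudo-effective;

and there is a finite set `ℱ` of integral divisors with nonzero isotropic classes in the closed positive
cone such that:

2. every nef or pseudo-effective `ℚ`-divisor `L` is numerically trivial, or it is big and numerically
   equivalent to a semiample divisor, and semiample if the irregularity is zero, or it is numerically
   equivalent to `t f^* E` for a rational number `t > 0`, an automorphism `f` in `𝒮` and some `E` in `ℱ`;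
3. all nef or pseudo-effective `ℚ`-divisors are numerically equivalent to semiample ones if and only if the
   divisors in `ℱ` are;
4. if the irregularity of `X` is zero then all nef `ℚ`-divisors are semiample if and only if the
   divisors in `ℱ` are semiample. -/
theorem result {K : Type} [Field K] [Algebra ℂ K] {N n ρ : ℕ} {y : Fin (N + 1) → K}
    (hy : NormalModel y) (hn : Algebra.trdeg ℂ K = n) (hn0 : 0 < n)
    {c : Place ℂ K → Fin ρ → ℤ} (hc : PicardBasis y c) (𝒮 : Subgroup (K ≃ₐ[ℂ] K))
    (h𝒮 : ∀ ψ ∈ 𝒮, IsAut ψ y) (B : Matrix (Fin ρ) (Fin ρ) ℤ) (h : Fin ρ → ℝ)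
    (hL : LatticeAction y c 𝒮 B h) :
    (∀ L : Place ℂ K → ℚ, {P | IsPrimeDivisor y P ∧ L P ≠ 0}.Finite →
      (PsefD y L ↔ rc y c L ∈ ncone B h) ∧ (BigD y L ↔ rc y c L ∈ pcone B h) ∧
      (IrregularityZero y → (NefD y n L ↔ PsefD y L))) ∧
    ∃ ℱ : Finset (Place ℂ K → ℤ),
      (∀ E ∈ ℱ, {P | IsPrimeDivisor y P ∧ E P ≠ 0}.Finite ∧
        rc y c (fun P => (E P : ℚ)) ∈ ncone B h ∧ rc y c (fun P => (E P : ℚ)) ≠ 0 ∧
        bil B (rc y c (fun P => (E P : ℚ))) (rc y c (fun P => (E P : ℚ))) = 0) ∧
      (∀ L : Place ℂ K → ℚ, {P | IsPrimeDivisor y P ∧ L P ≠ 0}.Finite → NefD y n L ∨ PsefD y L →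
        NumEquiv y L (fun _ => 0) ∨
        (BigD y L ∧ NumSemiample y n L ∧ (IrregularityZero y → SemiampleD y n L)) ∨
        ∃ E ∈ ℱ, ∃ ψ ∈ 𝒮, ∃ t : ℚ, 0 < t ∧
          NumEquiv y L (fun P => t * pullD ψ (fun P => (E P : ℚ)) P)) ∧
      ((∀ L : Place ℂ K → ℚ, {P | IsPrimeDivisor y P ∧ L P ≠ 0}.Finite → NefD y n L ∨ PsefD y L →
          NumSemiample y n L) ↔ ∀ E ∈ ℱ, NumSemiample y n (fun P => (E P : ℚ))) ∧
      (IrregularityZero y →
        ((∀ L : Place ℂ K → ℚ, {P | IsPrimeDivisor y P ∧ L P ≠ 0}.Finite → NefD y n L →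
          SemiampleD y n L) ↔ ∀ E ∈ ℱ, SemiampleD y n (fun P => (E P : ℚ)))) := by
  have hm := mods
  have hfr := fun φ hφ => Pool.Agent.N265.CC.leafFREE K N n y hy φ (h𝒮 φ hφ)
  have hps : ∀ φ ∈ 𝒮, PseudoAut φ y := fun φ hφ => (hfr φ hφ).1
  obtain ⟨hCE, hnef⟩ := nef_eq hm hy hn hn0 hc h𝒮 hL.form hL.index hL.rank hL.psef
  obtain ⟨-, -, -, -, -, hcl, hint', -, -, -, -, -, -, -, -, -⟩ := hm.bas ρ B h hL.form
  have hsa : interior (CE y c) ⊆ saCone y n c := by
    rw [hCE, ← hnef]
    refine interior_closure_sub ?_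
    change (interior (nefCone y n c)).Nonempty
    rw [hnef, hint']
    exact ⟨h, hL.form.pos, hL.form.pos⟩
  obtain ⟨ℱ, hℱ, hall⟩ := cusps_div hm hy hc hps hL.form hL.index hCE
  have hpsef : ∀ L : Place ℂ K → ℚ, NefD y n L ∨ PsefD y L → PsefD y L := by
    rintro L (h1 | h1)
    · exact psef_of_nefD hy hn hn0 h1
    · exact h1
  have hEfin : ∀ E ∈ ℱ, {P | IsPrimeDivisor y P ∧ (E P : ℚ) ≠ 0}.Finite := by
    intro E hE
    refine (hℱ E hE).1.subset ?_
    rintro P ⟨h1, h2⟩
    exact ⟨h1, fun h3 => h2 (by rw [h3]; simp)⟩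
  have hEps : ∀ E ∈ ℱ, PsefD y (fun P => (E P : ℚ)) := fun E hE =>
    (psef_iff hy hc (hEfin E hE)).2 (by rw [hCE]; exact (hℱ E hE).2.1)
  have hzero : ∀ {L : Place ℂ K → ℚ}, Fin0 y L → rc y c L = 0 → NumEquiv y L (fun _ => 0) := by
    intro L hL h0
    refine (numEquiv_iff hy hc hL (Set.finite_empty.subset (by rintro P ⟨-, h⟩; exact h rfl))).2 ?_
    rw [h0]
    exact (rc_zero_iff.2 cls_zero).symm
  -- the classification
  have hcls : ∀ L : Place ℂ K → ℚ, {P | IsPrimeDivisor y P ∧ L P ≠ 0}.Finite → PsefD y L →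
      rc y c L = 0 ∨ rc y c L ∈ interior (CE y c) ∨
        ∃ E ∈ ℱ, ∃ ψ ∈ 𝒮, ∃ t : ℚ, 0 < t ∧
          NumEquiv y L (fun P => t * pullD ψ (fun P => (E P : ℚ)) P) := by
    intro L hLf hp
    have h1 := (psef_iff hy hc hLf).1 hp
    rw [hCE] at h1
    by_cases h0 : rc y c L = 0
    · exact Or.inl h0
    · rcases pos_or_iso hL.form h1 with h2 | h2
      · refine Or.inr (Or.inl ?_)
        rw [hCE, hint']
        exact h2
      · exact Or.inr (Or.inr (hall L hLf h1 h0 h2))
  -- transport
  have htr : ∀ L : Place ℂ K → ℚ, {P | IsPrimeDivisor y P ∧ L P ≠ 0}.Finite → PsefD y L →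
      (∀ E ∈ ℱ, rc y c (fun P => (E P : ℚ)) ∈ saCone y n c) → rc y c L ∈ saCone y n c := by
    intro L hLf hp hE
    rcases hcls L hLf hp with h1 | h1 | ⟨E, hEm, ψ, hψ, t, ht, h1⟩
    · rw [h1]
      exact coneOf_zero _
    · exact hsa h1
    · obtain ⟨M, hM⟩ := exists_rep (𝒮 := 𝒮) hy hc hps
      have hT := hM.isPull ⟨ψ, hψ⟩
      have hEF : Fin0 y (fun P => (E P : ℚ)) := hEfin E hEm
      rw [numEquiv_iff hy hc hLf ((fin_pull (hps ψ hψ) hEF).smul _), rc_smul,
        rc_pull hy (hps ψ hψ) hT hEF] at h1
      rw [h1]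
      have h2 : hM.TE ⟨ψ, hψ⟩ (rc y c (fun P => (E P : ℚ))) ∈ saCone y n c :=
        sa_pres hy h𝒮 ⟨ψ, hψ, hT⟩ (hE E hEm)
      exact coneOf_smul h2 (by positivity)
  refine ⟨fun L hLf => ⟨?_, ?_, fun hq => ⟨psef_of_nefD hy hn hn0, nefD_of_psef hy hc hq hsa hLf⟩⟩,
    ℱ, hℱ, fun L hLf hLn => ?_, ⟨fun hA E hE => hA _ (hEfin E hE) (Or.inr (hEps E hE)), fun hA L hLf hLn => ?_⟩,
    fun hq => ⟨fun hA E hE => hA _ (hEfin E hE) (nefD_of_psef hy hc hq hsa (hEfin E hE) (hEps E hE)),
      fun hA L hLf hLn => ?_⟩⟩
  · rw [psef_iff hy hc hLf, hCE]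
  · rw [big_iff hy hc hLf, hCE, hint']
  · rcases hcls L hLf (hpsef L hLn) with h1 | h1 | h1
    · exact Or.inl (hzero hLf h1)
    · exact Or.inr (Or.inl ⟨(big_iff hy hc hLf).2 h1, (numSemiample_iff hy hc hLf).2 (hsa h1),
        fun hq => (semiample_iff hy hc hq hLf).2 (hsa h1)⟩)
    · exact Or.inr (Or.inr h1)
  · exact (numSemiample_iff hy hc hLf).2 (htr L hLf (hpsef L hLn) fun E hE =>
      (numSemiample_iff hy hc (hEfin E hE)).1 (hA E hE))
  · exact (semiample_iff hy hc hq hLf).2 (htr L hLf (hpsef L (Or.inl hLn)) fun E hE =>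
      (semiample_iff hy hc hq (hEfin E hE)).1 (hA E hE))

end Pool.Agent.Results.MP_5ee2d0_ag.LatticeAutomorphisms
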